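import Pool.Agent.Zk45.RS.Stm

/-!
Almost every point of a real geometric progression (in the logarithmic coordinate) has a dense
forward orbit modulo one.
-/

set_option autoImplicit false

open MeasureTheory Filter Topology Set

namespace Pool.Agent.Zk96.RS

open Pool.Agent.H705R2

/-- in the interval `[x, x + 2 / (Y L)]` there is an interval of comparable length on which
`Y exp (L (s - x))` is in `(t₀ - r, t₀ + r)` modulo one -/
theorem piece (L Y x t₀ r : ℝ) (hL : 0 < L) (hY : 1 ≤ Y) (hr : 0 < r) (hr2 : r ≤ 1 / 2) :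
    ∃ s1 s2 : ℝ, x ≤ s1 ∧ s2 ≤ x + 2 / (Y * L) ∧ r / 3 * (2 / (Y * L)) ≤ s2 - s1 ∧
      ∀ s, s1 < s → s < s2 → ∃ k : ℤ, |Y * Real.exp (L * (s - x)) - k - t₀| < r := by
  have hY0 : 0 < Y := by linarith
  set k : ℤ := ⌈Y + r - t₀⌉ with hk
  have hk1 : Y + r - t₀ ≤ k := Int.le_ceil _
  have hk2 : (k : ℝ) < Y + r - t₀ + 1 := Int.ceil_lt_add_one _
  set y1 : ℝ := t₀ + k - r with hy1
  set y2 : ℝ := t₀ + k + r with hy2
  have h1 : Y ≤ y1 := by rw [hy1]; linarith
  have h2 : y2 ≤ Y + 2 := by rw [hy2]; linarith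
  have h12 : y2 - y1 = 2 * r := by rw [hy1, hy2]; ring
  have hy10 : 0 < y1 := by linarith
  have hy20 : 0 < y2 := by linarith
  refine ⟨x + Real.log (y1 / Y) / L, x + Real.log (y2 / Y) / L, ?_, ?_, ?_, ?_⟩
  · have : 0 ≤ Real.log (y1 / Y) := Real.log_nonneg (by rw [le_div_iff₀ hY0]; linarith)
    have := div_nonneg this hL.le
    linarith
  · have h3 : Real.log (y2 / Y) ≤ y2 / Y - 1 := Real.log_le_sub_one_of_pos (by positivity)
    have h4 : y2 / Y - 1 ≤ 2 / Y := by
      rw [div_sub_one hY0.ne']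
      gcongr
      linarith
    have h5 : Real.log (y2 / Y) / L ≤ 2 / Y / L := by
      gcongr
      linarith
    rw [div_div] at h5
    linarith
  · have h3 : Real.log (y2 / Y) - Real.log (y1 / Y) = Real.log (y2 / y1) := by
      rw [Real.log_div hy20.ne' hY0.ne', Real.log_div hy10.ne' hY0.ne',
        Real.log_div hy20.ne' hy10.ne']
      ring
    have h4 : 1 - (y2 / y1)⁻¹ ≤ Real.log (y2 / y1) := Real.one_sub_inv_le_log_of_pos (by positivity)
    have h5 : 1 - (y2 / y1)⁻¹ = 2 * r / y2 := by
      rw [inv_div]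
      field_simp
      linarith
    have h6 : 2 * r / (3 * Y) ≤ 2 * r / y2 := by
      gcongr
      linarith
    have h7 : x + Real.log (y2 / Y) / L - (x + Real.log (y1 / Y) / L) = Real.log (y2 / y1) / L := by
      rw [← h3]; ring
    rw [h7]
    have h8 : r / 3 * (2 / (Y * L)) = 2 * r / (3 * Y) / L := by
      field_simp
    rw [h8]
    gcongr
    linarith
  · intro s hs1 hs2
    refine ⟨k, ?_⟩
    have h3 : Real.log (y1 / Y) < L * (s - x) := by
      have : Real.log (y1 / Y) / L < s - x := by linarith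
      rw [div_lt_iff₀ hL] at this
      linarith
    have h4 : L * (s - x) < Real.log (y2 / Y) := by
      have : s - x < Real.log (y2 / Y) / L := by linarith
      rw [lt_div_iff₀ hL] at this
      linarith
    rw [Real.log_lt_iff_lt_exp (by positivity), div_lt_iff₀ hY0] at h3
    rw [Real.lt_log_iff_exp_lt (by positivity), lt_div_iff₀ hY0] at h4
    rw [abs_lt]
    constructor <;> nlinarith

theorem null_pos (ρ : ℝ) (hρ : 1 < ρ) (κ : ℝ) (hκ : 0 < κ) (J : Set Circ) (hJ : IsOpen J)
    (hJn : J.Nonempty) :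
    volume {s : ℝ | ∀ j : ℕ, ((κ * ρ ^ (s + (j : ℝ)) : ℝ) : Circ) ∉ J} = 0 := by
  set N : Set ℝ := {s : ℝ | ∀ j : ℕ, ((κ * ρ ^ (s + (j : ℝ)) : ℝ) : Circ) ∉ J} with hN
  -- an arc in `J`
  obtain ⟨t₀, r, hr, hr2, hball⟩ : ∃ t₀ r : ℝ, 0 < r ∧ r ≤ 1 / 2 ∧
      ∀ y : ℝ, |y - t₀| < r → (y : Circ) ∈ J := by
    obtain ⟨z, hz⟩ := hJn
    obtain ⟨t₀, rfl⟩ := QuotientAddGroup.mk_surjective z
    have hop : IsOpen ((fun y : ℝ => (y : Circ)) ⁻¹' J) :=
      hJ.preimage (AddCircle.continuous_mk' (1 : ℝ))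
    obtain ⟨ε, hε, hb⟩ := Metric.isOpen_iff.1 hop t₀ hz
    refine ⟨t₀, min ε (1 / 2), by positivity, min_le_right _ _, ?_⟩
    intro y hy
    apply hb
    rw [Metric.mem_ball, Real.dist_eq]
    exact lt_of_lt_of_le hy (min_le_left _ _)
  have hρ0 : 0 < ρ := by linarith
  have hL : 0 < Real.log ρ := Real.log_pos hρ
  have key : ∀ᵐ x ∂(volume : Measure ℝ).restrict N, False := by
    have hd := Besicovitch.ae_tendsto_measure_inter_div (volume : Measure ℝ) N
    filter_upwards [hd] with x hx
    -- the radii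
    set Y : ℕ → ℝ := fun j => κ * ρ ^ (x + (j : ℝ)) with hYd
    have hYt : Tendsto Y atTop atTop := by
      have h1 : Tendsto (fun j : ℕ => κ * ρ ^ x * ρ ^ j) atTop atTop :=
        (tendsto_pow_atTop_atTop_of_one_lt hρ).const_mul_atTop (by positivity)
      refine h1.congr fun j => ?_
      rw [hYd]
      simp only
      rw [Real.rpow_add hρ0, Real.rpow_natCast]
      ring
    set δ : ℕ → ℝ := fun j => 2 / (Y j * Real.log ρ) with hδ
    have hδt : Tendsto δ atTop (𝓝[>] 0) := by
      rw [tendsto_nhdsWithin_iff]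
      constructor
      · exact tendsto_const_nhds.div_atTop (hYt.atTop_mul_const hL)
      · filter_upwards [hYt.eventually_ge_atTop 1] with j hj
        have : 0 < Y j := by linarith
        show 0 < 2 / (Y j * Real.log ρ)
        positivity
    have h1 := hx.comp hδt
    have h2 : ∀ᶠ j in atTop, volume (N ∩ Metric.closedBall x (δ j)) /
        volume (Metric.closedBall x (δ j)) ≤ ENNReal.ofReal (1 - r / 6) := by
      filter_upwards [hYt.eventually_ge_atTop 1] with j hj
      obtain ⟨s1, s2, g1, g2, g3, g4⟩ := piece (Real.log ρ) (Y j) x t₀ r hL hj hr hr2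
      have hYj : 0 < Y j := by linarith
      have hδj : 0 < δ j := by
        show 0 < 2 / (Y j * Real.log ρ)
        positivity
      have g2' : s2 ≤ x + δ j := g2
      have g3' : r / 3 * δ j ≤ s2 - s1 := g3
      have hlt : s1 < s2 := by
        have : 0 < r / 3 * δ j := by positivity
        linarith
      have hdis : ∀ s ∈ Ioo s1 s2, s ∉ N := by
        rintro s ⟨hs1, hs2⟩ hsN
        obtain ⟨k, hk⟩ := g4 s hs1 hs2
        apply hsN j
        have e1 : κ * ρ ^ (s + (j : ℝ)) = Y j * Real.exp (Real.log ρ * (s - x)) := by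
          rw [hYd]
          simp only
          rw [← Real.rpow_def_of_pos hρ0, mul_assoc, ← Real.rpow_add hρ0]
          congr 2
          ring
        have e2 : ((κ * ρ ^ (s + (j : ℝ)) : ℝ) : Circ) =
            ((Y j * Real.exp (Real.log ρ * (s - x)) - k : ℝ) : Circ) := by
          rw [e1, AddCircle.coe_sub]
          have : ((k : ℝ) : Circ) = 0 := by
            rw [AddCircle.coe_eq_zero_iff]
            exact ⟨k, by simp⟩
          rw [this, sub_zero]
        rw [e2]
        exact hball _ hk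
      have hsub : N ∩ Metric.closedBall x (δ j) ⊆ Metric.closedBall x (δ j) \ Ioo s1 s2 :=
        fun s hs => ⟨hs.2, fun h => hdis s h hs.1⟩
      have hsub2 : Ioo s1 s2 ⊆ Metric.closedBall x (δ j) := by
        rintro s ⟨hs1, hs2⟩
        rw [Metric.mem_closedBall, Real.dist_eq, abs_le]
        constructor <;> linarith
      have hv : volume (Metric.closedBall x (δ j) \ Ioo s1 s2) =
          ENNReal.ofReal (2 * δ j - (s2 - s1)) := by
        rw [measure_sdiff hsub2 measurableSet_Ioo.nullMeasurableSet (by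
          rw [Real.volume_Ioo]; exact ENNReal.ofReal_ne_top), Real.volume_closedBall,
          Real.volume_Ioo, ENNReal.ofReal_sub (2 * δ j) (show 0 ≤ s2 - s1 by linarith)]
      calc volume (N ∩ Metric.closedBall x (δ j)) / volume (Metric.closedBall x (δ j))
          ≤ ENNReal.ofReal (2 * δ j - (s2 - s1)) / volume (Metric.closedBall x (δ j)) := by
            gcongr
            rw [← hv]
            exact measure_mono hsub
        _ = ENNReal.ofReal ((2 * δ j - (s2 - s1)) / (2 * δ j)) := by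
            rw [Real.volume_closedBall, ENNReal.ofReal_div_of_pos (by positivity)]
        _ ≤ ENNReal.ofReal (1 - r / 6) := by
            apply ENNReal.ofReal_le_ofReal
            rw [div_le_iff₀ (by positivity)]
            nlinarith
    have h3 := le_of_tendsto h1 h2
    have h4 : ENNReal.ofReal (1 - r / 6) < 1 := by
      rw [ENNReal.ofReal_lt_one]
      linarith
    exact absurd h3 (not_le.2 h4)
  rw [ae_iff] at key
  simpa using key

theorem null : Pool.Agent.Zk45.RS.S_NULL := by
  intro ρ hρ κ hκ J hJ hJn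
  rcases lt_or_gt_of_ne hκ with h | h
  · have h1 := null_pos ρ hρ (-κ) (by linarith) ((fun z => -z) ⁻¹' J)
      (hJ.preimage continuous_neg) (by
        obtain ⟨z, hz⟩ := hJn
        exact ⟨-z, by simpa using hz⟩)
    refine measure_mono_null ?_ h1
    intro s hs j
    have h2 := hs j
    have e : -((-κ * ρ ^ (s + (j : ℝ)) : ℝ) : Circ) = ((κ * ρ ^ (s + (j : ℝ)) : ℝ) : Circ) := by
      rw [← AddCircle.coe_neg]
      congr 1
      ring
    show -((-κ * ρ ^ (s + (j : ℝ)) : ℝ) : Circ) ∉ J
    rw [e]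
    exact h2
  · exact null_pos ρ hρ κ h J hJ hJn

end Pool.Agent.Zk96.RS
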